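import Mathlib

/-!
# Dilation surfaces of genus two: the monotone block

`plane_form`: an alternating form on a space of dimension at most four, restricted to the
orthogonal of a vector outside of the radical, is a determinant of two functionals.
`ae_bound`: a positive path in such a plane is rectifiable at almost every point of its domain.
-/

set_option autoImplicit false

namespace Pool.Agent.H25.DG

open MeasureTheory Set

theorem plane_form {V : Type*} [AddCommGroup V] [Module ℝ V] [FiniteDimensional ℝ V]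
    (hV : Module.finrank ℝ V ≤ 4) (B : V →ₗ[ℝ] V →ₗ[ℝ] ℝ) (hB : ∀ x, B x x = 0)
    (χ : V) (hχ : ∃ e, B χ e ≠ 0) :
    ∃ a b : V, ∀ p q : V, B χ p = 0 → B χ q = 0 →
      B p q = B p a * B q b - B q a * B p b := by
  have hanti : ∀ x y, B x y = - B y x := by
    intro x y
    have h := hB (x + y)
    simp only [map_add, LinearMap.add_apply, hB] at h
    linarith
  by_cases hall : ∀ p q : V, B χ p = 0 → B χ q = 0 → B p q = 0
  · exact ⟨0, 0, fun p q hp hq => by simp [hall p q hp hq]⟩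
  push Not at hall
  obtain ⟨u0, v0, hu0, hv0, huv0⟩ := hall
  obtain ⟨e0, he0⟩ := hχ
  -- normalise
  obtain ⟨e, he⟩ : ∃ e, B χ e = 1 := ⟨(B χ e0)⁻¹ • e0, by simp [he0]⟩
  obtain ⟨u1, hu1, huv1⟩ : ∃ u, B χ u = 0 ∧ B u v0 = 1 :=
    ⟨(B u0 v0)⁻¹ • u0, by simp [hu0], by simp [huv0]⟩
  have hχχ := hB χ
  -- project to the orthogonal of e
  set u := u1 - (B u1 e) • χ with hu
  set v := v0 - (B v0 e) • χ with hv
  have hχu : B χ u = 0 := by simp [hu, hu1, hχχ]
  have hχv : B χ v = 0 := by simp [hv, hv0, hχχ]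
  have hue : B u e = 0 := by simp [hu, he]
  have hve : B v e = 0 := by simp [hv, he]
  have hu1χ : B u1 χ = 0 := by rw [hanti, hu1, neg_zero]
  have huv : B u v = 1 := by
    simp [hu, hv, huv1, hv0, hu1χ, hχχ]
  have hvu : B v u = -1 := by rw [hanti, huv]
  have huχ : B u χ = 0 := by rw [hanti, hχu, neg_zero]
  have hvχ : B v χ = 0 := by rw [hanti, hχv, neg_zero]
  have heχ : B e χ = -1 := by rw [hanti, he]
  have heu : B e u = 0 := by rw [hanti, hue, neg_zero]
  have hev : B e v = 0 := by rw [hanti, hve, neg_zero]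
  have hli : LinearIndependent ℝ ![χ, e, u, v] := by
    rw [Fintype.linearIndependent_iff]
    intro g hg
    simp only [Fin.sum_univ_four, Matrix.cons_val_zero, Matrix.cons_val_one, Matrix.cons_val] at hg
    have e1 := congrArg (B χ) hg
    have e2 := congrArg (B e) hg
    have e3 := congrArg (B u) hg
    have e4 := congrArg (B v) hg
    simp only [map_add, map_smul, smul_eq_mul, map_zero, hχχ, he, hχu, hχv, heχ, heu, hev,
      hB, huχ, hue, huv, hvχ, hve, hvu, mul_zero, add_zero, zero_add, mul_one, mul_neg] at e1 e2 e3 e4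
    intro i
    fin_cases i
    · simpa using e2
    · simpa using e1
    · simpa using e4
    · simpa using e3
  have hspan : Submodule.span ℝ (Set.range ![χ, e, u, v]) = ⊤ := by
    apply hli.span_eq_top_of_card_eq_finrank'
    have h1 := hli.fintype_card_le_finrank
    simp only [Fintype.card_fin] at h1 ⊢
    omega
  have hzero : ∀ x : V, B x χ = 0 → B x e = 0 → B x u = 0 → B x v = 0 → ∀ y, B x y = 0 := by
    intro x h1 h2 h3 h4 y
    have hy : y ∈ Submodule.span ℝ (Set.range ![χ, e, u, v]) := by rw [hspan]; trivial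
    refine Submodule.span_induction (p := fun z _ => B x z = 0) ?_ ?_ ?_ ?_ hy
    · rintro _ ⟨i, rfl⟩
      fin_cases i <;> simpa
    · simp
    · intro z w _ _ hz hw
      simp [hz, hw]
    · intro c z _ hz
      simp [hz]
  refine ⟨u, v, fun p q hp hq => ?_⟩
  have hpχ : B p χ = 0 := by rw [hanti, hp, neg_zero]
  have hqχ : B q χ = 0 := by rw [hanti, hq, neg_zero]
  -- the residual part of p
  have key := hzero (p - (B p e) • χ - (B p v) • u + (B p u) • v) ?_ ?_ ?_ ?_ q
  · simp only [map_add, map_sub, map_smul, LinearMap.add_apply, LinearMap.sub_apply,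
      LinearMap.smul_apply, smul_eq_mul, hq, mul_zero, sub_zero] at key
    rw [hanti u q, hanti v q] at key
    linarith
  · simp [hpχ, hχχ, huχ, hvχ]
  · simp [he, hue, hve]
  · simp [hχu, hB, hvu]
  · simp [hχv, hB, huv]

/-- The key step at one base point: `a`, `b` the coordinates of the path. -/
theorem ae_bound_aux (K : Set ℝ) (a b : ℝ → ℝ) (M : ℝ)
    (ha : ∀ t ∈ K, |a t| ≤ M) (hb : ∀ t ∈ K, |b t| ≤ M)
    (hpos : ∀ t ∈ K, ∀ s ∈ K, t < s → 0 < a t * b s - a s * b t) (t0 : ℝ) (ht0 : t0 ∈ K) :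
    ∀ᵐ t : ℝ, t ∈ K → t0 < t →
      ∃ C : ℝ, ∀ s ∈ K, |a t * b s - a s * b t| ≤ C * |s - t| := by
  set g : ℝ → ℝ := fun t => - ((a t0 * a t + b t0 * b t) / (a t0 * b t - a t * b t0)) with hg
  set S : Set ℝ := K ∩ Ioi t0 with hS
  have hid : ∀ t ∈ S, ∀ s ∈ S, g s - g t =
      (a t0 ^ 2 + b t0 ^ 2) * (a t * b s - a s * b t) /
        ((a t0 * b t - a t * b t0) * (a t0 * b s - a s * b t0)) := by
    intro t ht s hs
    have h1 := (hpos t0 ht0 t ht.1 ht.2).ne'
    have h2 := (hpos t0 ht0 s hs.1 hs.2).ne'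
    simp only [hg]
    rw [neg_sub_neg, div_sub_div _ _ h1 h2]
    congr 1
    ring
  have hmono : MonotoneOn g S := by
    intro t ht s hs hts
    rcases hts.eq_or_lt with rfl | hlt
    · exact le_refl _
    have h := hid t ht s hs
    have h0 := hpos t ht.1 s hs.1 hlt
    have h1 := hpos t0 ht0 t ht.1 ht.2
    have h2 := hpos t0 ht0 s hs.1 hs.2
    have : 0 ≤ g s - g t := by
      rw [h]; positivity
    linarith
  have hae := hmono.ae_differentiableWithinAt_of_mem
  filter_upwards [hae] with t hdiff htK ht0t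
  have htS : t ∈ S := ⟨htK, ht0t⟩
  have hd := (hdiff htS).hasFDerivWithinAt.isBigO_sub
  obtain ⟨C, hC⟩ := hd.bound
  rw [Filter.Eventually, Metric.mem_nhdsWithin_iff] at hC
  obtain ⟨δ, hδ, hball⟩ := hC
  have hM : 0 ≤ M := le_trans (abs_nonneg _) (ha t0 ht0)
  have hn0 : 0 < a t0 ^ 2 + b t0 ^ 2 := by
    by_contra hcon
    have h1 : a t0 = 0 := by nlinarith [sq_nonneg (a t0), sq_nonneg (b t0)]
    have h2 : b t0 = 0 := by nlinarith [sq_nonneg (a t0), sq_nonneg (b t0)]
    have := hpos t0 ht0 t htK ht0t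
    rw [h1, h2] at this
    simp at this
  have hdet : ∀ r ∈ K, ∀ s ∈ K, |a r * b s - a s * b r| ≤ 2 * M ^ 2 := by
    intro r hr s hs
    have h1 : |a r * b s| ≤ M * M := by
      rw [abs_mul]; exact mul_le_mul (ha r hr) (hb s hs) (abs_nonneg _) hM
    have h2 : |a s * b r| ≤ M * M := by
      rw [abs_mul]; exact mul_le_mul (ha s hs) (hb r hr) (abs_nonneg _) hM
    have h3 := abs_sub (a r * b s) (a s * b r)
    nlinarith
  set ε : ℝ := min δ (t - t0) with hε
  have hεpos : 0 < ε := lt_min hδ (by linarith)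
  refine ⟨max (2 * M ^ 2 / ε) (|C| * (2 * M ^ 2) ^ 2 / (a t0 ^ 2 + b t0 ^ 2)), fun s hs => ?_⟩
  by_cases hfar : ε ≤ |s - t|
  · calc |a t * b s - a s * b t| ≤ 2 * M ^ 2 := hdet t htK s hs
      _ = 2 * M ^ 2 / ε * ε := by field_simp
      _ ≤ 2 * M ^ 2 / ε * |s - t| := by
          apply mul_le_mul_of_nonneg_left hfar; positivity
      _ ≤ _ := mul_le_mul_of_nonneg_right (le_max_left _ _) (abs_nonneg _)
  · push Not at hfar
    have hs1 : |s - t| < δ := lt_of_lt_of_le hfar (min_le_left _ _)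
    have hs2 : |s - t| < t - t0 := lt_of_lt_of_le hfar (min_le_right _ _)
    have hsS : s ∈ S := ⟨hs, by
      have := (abs_lt.mp hs2).1
      show t0 < s
      linarith⟩
    have hb1 := hball ⟨by simpa [Real.dist_eq] using hs1, hsS⟩
    change ‖g s - g t‖ ≤ C * ‖s - t‖ at hb1
    simp only [Real.norm_eq_abs] at hb1
    have hD1 := hpos t0 ht0 t htK ht0t
    have hD2 := hpos t0 ht0 s hs hsS.2
    have hle1 := hdet t0 ht0 t htK
    have hle2 := hdet t0 ht0 s hs
    rw [abs_of_pos hD1] at hle1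
    rw [abs_of_pos hD2] at hle2
    have hkey : |a t * b s - a s * b t| * (a t0 ^ 2 + b t0 ^ 2) =
        |g s - g t| * ((a t0 * b t - a t * b t0) * (a t0 * b s - a s * b t0)) := by
      rw [hid t htS s hsS, abs_div, abs_mul, abs_of_pos hn0, abs_of_pos (mul_pos hD1 hD2),
        div_mul_cancel₀ _ (mul_pos hD1 hD2).ne', mul_comm]
    have hprod : (a t0 * b t - a t * b t0) * (a t0 * b s - a s * b t0) ≤ (2 * M ^ 2) ^ 2 := by
      rw [sq]
      exact mul_le_mul hle1 hle2 hD2.le (by positivity)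
    have h5 : |a t * b s - a s * b t| ≤
        |C| * (2 * M ^ 2) ^ 2 / (a t0 ^ 2 + b t0 ^ 2) * |s - t| := by
      rw [div_mul_eq_mul_div, le_div_iff₀ hn0, hkey]
      calc |g s - g t| * ((a t0 * b t - a t * b t0) * (a t0 * b s - a s * b t0))
          ≤ (C * |s - t|) * ((a t0 * b t - a t * b t0) * (a t0 * b s - a s * b t0)) :=
            mul_le_mul_of_nonneg_right hb1 (mul_pos hD1 hD2).le
        _ ≤ (|C| * |s - t|) * ((a t0 * b t - a t * b t0) * (a t0 * b s - a s * b t0)) := by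
            apply mul_le_mul_of_nonneg_right _ (mul_pos hD1 hD2).le
            exact mul_le_mul_of_nonneg_right (le_abs_self C) (abs_nonneg _)
        _ ≤ (|C| * |s - t|) * (2 * M ^ 2) ^ 2 :=
            mul_le_mul_of_nonneg_left hprod (by positivity)
        _ = |C| * (2 * M ^ 2) ^ 2 * |s - t| := by ring
    exact h5.trans (mul_le_mul_of_nonneg_right (le_max_right _ _) (abs_nonneg _))

/-- A positive path in a plane is rectifiable at almost every point of its domain. -/
theorem ae_bound_plane (K : Set ℝ) (a b : ℝ → ℝ) (M : ℝ)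
    (ha : ∀ t ∈ K, |a t| ≤ M) (hb : ∀ t ∈ K, |b t| ≤ M)
    (hpos : ∀ t ∈ K, ∀ s ∈ K, t < s → 0 < a t * b s - a s * b t) :
    ∀ᵐ t : ℝ, t ∈ K → ∃ C : ℝ, ∀ s ∈ K, |a t * b s - a s * b t| ≤ C * |s - t| := by
  classical
  -- base points indexed by the rationals
  set c : ℚ → ℝ := fun r => if h : ∃ x ∈ K, x < (r : ℝ) then h.choose else 0 with hc
  have hcK : ∀ r : ℚ, (∃ x ∈ K, x < (r : ℝ)) → c r ∈ K ∧ c r < r := by
    intro r h
    simp only [hc, dif_pos h]
    exact h.choose_spec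
  have h1 : ∀ᵐ t : ℝ, ∀ r : ℚ, (∃ x ∈ K, x < (r : ℝ)) → t ∈ K → c r < t →
      ∃ C : ℝ, ∀ s ∈ K, |a t * b s - a s * b t| ≤ C * |s - t| := by
    rw [ae_all_iff]
    intro r
    by_cases h : ∃ x ∈ K, x < (r : ℝ)
    · filter_upwards [ae_bound_aux K a b M ha hb hpos (c r) (hcK r h).1] with t ht _ htK hlt
      exact ht htK hlt
    · exact Filter.Eventually.of_forall fun t hh => absurd hh h
  -- the minimum of K, if any, is one point
  have h2 : ∀ᵐ t : ℝ, t ∈ K → ∃ x ∈ K, x < t := by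
    by_cases hmin : ∃ m ∈ K, ∀ x ∈ K, m ≤ x
    · obtain ⟨m, hm, hmle⟩ := hmin
      have hne : ∀ᵐ t : ℝ, t ≠ m := by
        rw [ae_iff]
        simp
      filter_upwards [hne] with t ht htK
      exact ⟨m, hm, lt_of_le_of_ne (hmle t htK) (Ne.symm ht)⟩
    · push Not at hmin
      exact Filter.Eventually.of_forall fun t ht => hmin t ht
  filter_upwards [h1, h2] with t ht1 ht2 htK
  obtain ⟨x, hx, hxt⟩ := ht2 htK
  obtain ⟨r, hr1, hr2⟩ := exists_rat_btwn hxt
  have hex : ∃ y ∈ K, y < (r : ℝ) := ⟨x, hx, hr1⟩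
  exact ht1 r hex htK ((hcK r hex).2.trans hr2)

/-- **The monotone block.** -/
theorem ae_bound {V : Type*} [AddCommGroup V] [Module ℝ V] [FiniteDimensional ℝ V]
    (hV : Module.finrank ℝ V ≤ 4) (B : V →ₗ[ℝ] V →ₗ[ℝ] ℝ) (hB : ∀ x, B x x = 0)
    (χ : V) (hχ : ∃ e, B χ e ≠ 0) (K : Set ℝ) (p : ℝ → V)
    (horth : ∀ t ∈ K, B χ (p t) = 0)
    (hbd : ∀ v : V, ∃ M : ℝ, ∀ t ∈ K, |B (p t) v| ≤ M)
    (hpos : ∀ t ∈ K, ∀ s ∈ K, t < s → 0 < B (p t) (p s)) :
    ∀ᵐ t : ℝ, t ∈ K → ∃ C : ℝ, ∀ s ∈ K, |B (p t) (p s)| ≤ C * |s - t| := by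
  obtain ⟨a, b, hab⟩ := plane_form hV B hB χ hχ
  obtain ⟨Ma, hMa⟩ := hbd a
  obtain ⟨Mb, hMb⟩ := hbd b
  have hdet : ∀ t ∈ K, ∀ s ∈ K, B (p t) (p s) =
      B (p t) a * B (p s) b - B (p s) a * B (p t) b :=
    fun t ht s hs => hab (p t) (p s) (horth t ht) (horth s hs)
  have h := ae_bound_plane K (fun t => B (p t) a) (fun t => B (p t) b) (max Ma Mb)
    (fun t ht => (hMa t ht).trans (le_max_left _ _))
    (fun t ht => (hMb t ht).trans (le_max_right _ _))
    (fun t ht s hs hts => by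
      have := hpos t ht s hs hts
      rw [hdet t ht s hs] at this
      exact this)
  filter_upwards [h] with t ht htK
  obtain ⟨C, hC⟩ := ht htK
  refine ⟨C, fun s hs => ?_⟩
  rw [hdet t htK s hs]
  exact hC s hs

end Pool.Agent.H25.DG
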